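import Mathlib
import Pool.Agent.H95.QC.AllTargets

/-!
# Gaussian fluctuations of `log W_N` for quasi-critical directed polymers in dimension `2+1`

Full answer to Q1: in the whole quasi-critical regime there are deterministic `c_N > 0`, `d_N` such
that `c_N (log W_N(β_N) - d_N)` converges in distribution to the standard Gaussian law; moreover
`c_N` is of exact order `1/λ_N`, `λ_N² = log (log N / ϑ_N)`.
-/

open MeasureTheory ProbabilityTheory Filter Topology
open scoped BigOperators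

namespace Pool.Agent.Results.MP_f3a553_pr.QuasiCriticalCLT

universe u

/-- the four unit steps of the simple random walk on `ℤ²` -/
def unitStep : Fin 4 → ℤ × ℤ := ![(1, 0), (-1, 0), (0, 1), (0, -1)]

/-- position at time `n` of the walk started at the origin with steps `e 0, e 1, …, e (N-1)` -/
def pos {N : ℕ} (e : Fin N → Fin 4) (n : ℕ) : ℤ × ℤ :=
  ∑ i : Fin N, if i.val < n then unitStep (e i) else 0

/-- the partition function `W_N = E[exp(∑_{n=1}^N (β ω(n, S_n) - Λ))]`: the expectation over the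
simple random walk is the average over its `4^N` equally likely step sequences -/
noncomputable def partitionFunction (ω : ℕ → ℤ × ℤ → ℝ) (β Λ : ℝ) (N : ℕ) : ℝ :=
  (∑ e : Fin N → Fin 4, Real.exp (∑ n ∈ Finset.Icc 1 N, (β * ω n (pos e n) - Λ))) / 4 ^ N

/-- the expected overlap `R_N = E^{⊗2} ∑_{n=1}^N 1{S¹_n = S²_n}` of two independent walks -/
noncomputable def overlap (N : ℕ) : ℝ :=
  (∑ e : Fin N → Fin 4, ∑ e' : Fin N → Fin 4,
    ∑ n ∈ Finset.Icc 1 N, if pos e n = pos e' n then (1 : ℝ) else 0) / (4 ^ N * 4 ^ N)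

/-- logarithmic moment generating function `Λ(β) = log E[exp(β ω)]` of the law `μ` -/
noncomputable def logMGF (μ : Measure ℝ) (β : ℝ) : ℝ := Real.log (∫ x, Real.exp (β * x) ∂μ)

/-- `σ²(β) = exp(Λ(2β) - 2Λ(β)) - 1` -/
noncomputable def sigmaSq (μ : Measure ℝ) (β : ℝ) : ℝ :=
  Real.exp (logMGF μ (2 * β) - 2 * logMGF μ β) - 1

/-- admissible law of the environment: mean zero, variance one, `E[exp(β ω)] < ∞` for `β ≥ 0` -/
structure Admissible (μ : Measure ℝ) : Prop where
  integrable_sq : Integrable (fun x => x ^ 2) μ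
  mean : ∫ x, x ∂μ = 0
  variance : ∫ x, x ^ 2 ∂μ = 1
  exp_moments : ∀ β : ℝ, 0 ≤ β → Integrable (fun x => Real.exp (β * x)) μ

/-- the quasi-critical regime: `σ²(β_N) = (1/R_N) (1 - ϑ_N / log N)` for all large `N`, with
`ϑ_N → ∞` and `ϑ_N / log N → 0` -/
structure QuasiCritical (μ : Measure ℝ) (β ϑ : ℕ → ℝ) : Prop where
  nonneg : ∀ N, 0 ≤ β N
  sigma : ∀ᶠ N in atTop, sigmaSq μ (β N) = (1 / overlap N) * (1 - ϑ N / Real.log N)
  top : Tendsto ϑ atTop atTop
  small : Tendsto (fun N => ϑ N / Real.log N) atTop (𝓝 0)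

/-- **Gaussian fluctuations of `log W_N` in the whole quasi-critical regime.** -/
theorem result {Ω : Type u} [MeasurableSpace Ω] (P : Measure Ω) [IsProbabilityMeasure P]
    (μ : Measure ℝ) [IsProbabilityMeasure μ] (hμ : Admissible μ)
    (ω : ℕ → ℤ × ℤ → Ω → ℝ) (hmeas : ∀ n x, Measurable (ω n x))
    (hind : iIndepFun (fun p : ℕ × (ℤ × ℤ) => ω p.1 p.2) P)
    (hlaw : ∀ n x, P.map (ω n x) = μ)
    (β ϑ : ℕ → ℝ) (hqc : QuasiCritical μ β ϑ) :
    ∃ c d : ℕ → ℝ, (∀ N, 0 < c N) ∧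
      (∃ a A : ℝ, 0 < a ∧ ∀ᶠ N in atTop, a ≤ c N * √(Real.log (Real.log N / ϑ N)) ∧
        c N * √(Real.log (Real.log N / ϑ N)) ≤ A) ∧
      TendstoInDistribution (fun N o => c N *
        (Real.log (partitionFunction (fun n x => ω n x o) (β N) (logMGF μ (β N)) N) - d N)) atTop
        (id : ℝ → ℝ) (fun _ => P) (gaussianReal 0 1) := by
  exact Pool.Agent.H95.QC.main_clt Pool.Agent.H62.QC.targetL Pool.Agent.H91.QC.targetB
    Pool.Agent.H95.QC.allT1 Pool.Agent.H97.QC.t2 Pool.Agent.H95.QC.allK0 Pool.Agent.H95.QC.allK1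
    Pool.Agent.H95.QC.allP2 Pool.Agent.H95.QC.allD5 Pool.Agent.H95.QC.allND
    Pool.Agent.H95.QC.allG1 Pool.Agent.H95.QC.allG2 Pool.Agent.H95.QC.allG4
    Pool.Agent.H95.QC.allG5 Pool.Agent.H9.QC.exists_params P μ hμ.integrable_sq hμ.mean
    hμ.variance hμ.exp_moments ω hmeas hind hlaw β hqc.nonneg ϑ hqc.sigma hqc.top hqc.small

end Pool.Agent.Results.MP_f3a553_pr.QuasiCriticalCLT
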